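import Pool.Agent.N659.HB.Stm8
import Pool.Agent.W308.LL.Trig

/-!
Project SD (helper659), subtask RK: dependence of the resolvent on one site.
-/

set_option autoImplicit false

noncomputable section

namespace Pool.Agent.N457.SD.RK

open MeasureTheory Filter Pool.Agent.W792.LL Pool.Agent.W792.WA Pool.Agent.N659.HB
open scoped Topology ENNReal

/-! ### Diagonal operators -/

theorem dia_ex (hD : S_DIA) {Γ : Type} (c : Γ → ℂ) (C : ℝ) (hC : 0 < C) (hc : ∀ x, ‖c x‖ ≤ C) :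
    (∀ (u : l2 Γ) (x : Γ), dia c u x = c x * u x) ∧ ‖dia c‖ ≤ C := by
  have hC' : (C : ℂ) ≠ 0 := by exact_mod_cast hC.ne'
  have h1 : ∀ x, ‖c x / C‖ ≤ 1 := by
    intro x
    rw [norm_div, Complex.norm_real, Real.norm_eq_abs, abs_of_pos hC, div_le_one hC]
    exact hc x
  obtain ⟨h2, h3⟩ := hD Γ (fun x => c x / C) h1
  have h4 : ∀ (u : l2 Γ) (x : Γ), ((C : ℂ) • dia (fun x => c x / C)) u x = c x * u x := by
    intro u x
    change ((C : ℂ) • (dia (fun x => c x / C) u)) x = _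
    rw [lp.coeFn_smul, Pi.smul_apply, h2, smul_eq_mul]
    field_simp
  have hex : ∃ D : l2 Γ →L[ℂ] l2 Γ, ∀ u x, D u x = c x * u x := ⟨_, h4⟩
  have hspec : ∀ (u : l2 Γ) (x : Γ), dia c u x = c x * u x := by
    unfold dia
    rw [dif_pos hex]
    exact Classical.choose_spec hex
  refine ⟨hspec, ?_⟩
  have h5 : dia c = (C : ℂ) • dia (fun x => c x / C) := by
    ext u x
    rw [hspec, h4]
  rw [h5, norm_smul, Complex.norm_real, Real.norm_eq_abs, abs_of_pos hC]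
  calc C * ‖dia fun x => c x / ↑C‖ ≤ C * 1 := by gcongr
    _ = C := mul_one C

/-! ### Sums -/

theorem hasSum_sq {Γ : Type} (u : l2 Γ) : HasSum (fun x => ‖u x‖ ^ 2) (‖u‖ ^ 2) := by
  have h := lp.hasSum_norm (p := 2) (by norm_num) u
  have e : (2 : ℝ≥0∞).toReal = ((2 : ℕ) : ℝ) := by norm_num
  simpa only [e, Real.rpow_natCast] using h

theorem summ_mul {Γ : Type} (u v : l2 Γ) : Summable fun x => u x * v x := by
  refine Summable.of_norm_bounded (g := fun x => ‖u x‖ ^ 2 + ‖v x‖ ^ 2)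
    ((hasSum_sq u).summable.add (hasSum_sq v).summable) ?_
  intro x
  rw [norm_mul]
  nlinarith [sq_nonneg (‖u x‖ - ‖v x‖), sq_nonneg (‖u x‖), sq_nonneg (‖v x‖)]

/-- The bilinear form. -/
def Bf {Γ : Type} (v : l2 Γ) : l2 Γ →ₗ[ℂ] ℂ where
  toFun u := ∑' x, u x * v x
  map_add' u u' := by
    rw [← (summ_mul u v).tsum_add (summ_mul u' v)]
    apply tsum_congr
    intro x
    rw [lp.coeFn_add, Pi.add_apply, add_mul]
  map_smul' c u := by
    rw [RingHom.id_apply, smul_eq_mul, ← tsum_mul_left]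
    apply tsum_congr
    intro x
    rw [lp.coeFn_smul, Pi.smul_apply, smul_eq_mul, mul_assoc]

theorem Bf_comm {Γ : Type} (u v : l2 Γ) : Bf v u = Bf u v := by
  change ∑' x, u x * v x = ∑' x, v x * u x
  apply tsum_congr
  intro x
  rw [mul_comm]

theorem dl_app {d : ℕ} (x y : Fin d → ℤ) : (dl x : l2 (Fin d → ℤ)) y = if x = y then 1 else 0 := by
  unfold dl
  rw [lp.single_apply]
  by_cases h : x = y
  · subst h
    simp
  · rw [if_neg h, Pi.single_eq_of_ne (fun h' => h h'.symm)]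

theorem Bf_dl {d : ℕ} (x : Fin d → ℤ) (u : l2 (Fin d → ℤ)) : Bf (dl x) u = u x := by
  change ∑' y, u y * (dl x : l2 (Fin d → ℤ)) y = u x
  rw [tsum_eq_single x]
  · rw [dl_app, if_pos rfl, mul_one]
  · intro y hy
    rw [dl_app, if_neg (fun h => hy h.symm), mul_zero]

/-- Symmetric operators. -/
def Sy {Γ : Type} (T : l2 Γ →L[ℂ] l2 Γ) : Prop := ∀ u v : l2 Γ, Bf v (T u) = Bf u (T v)

theorem Sy.add {Γ : Type} {T T' : l2 Γ →L[ℂ] l2 Γ} (h : Sy T) (h' : Sy T') : Sy (T + T') := by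
  intro u v
  rw [ContinuousLinearMap.add_apply, ContinuousLinearMap.add_apply, map_add, map_add, h, h']

theorem Sy.smul {Γ : Type} {T : l2 Γ →L[ℂ] l2 Γ} (c : ℂ) (h : Sy T) : Sy (c • T) := by
  intro u v
  rw [ContinuousLinearMap.smul_apply, ContinuousLinearMap.smul_apply, map_smul, map_smul, h]

theorem Sy.one {Γ : Type} : Sy (1 : l2 Γ →L[ℂ] l2 Γ) := by
  intro u v
  exact Bf_comm u v

theorem Sy.zero {Γ : Type} : Sy (0 : l2 Γ →L[ℂ] l2 Γ) := by
  intro u v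
  simp

theorem Sy.sum {Γ ι : Type} (s : Finset ι) (T : ι → l2 Γ →L[ℂ] l2 Γ) (h : ∀ i ∈ s, Sy (T i)) :
    Sy (∑ i ∈ s, T i) :=
  Finset.sum_induction T Sy (fun _ _ h h' => h.add h') Sy.zero h

theorem Sy.inv {Γ : Type} {A G : l2 Γ →L[ℂ] l2 Γ} (h : Sy A) (h1 : A * G = 1) : Sy G := by
  have h2 : ∀ u, A (G u) = u := by
    intro u
    have := congrArg (fun T : l2 Γ →L[ℂ] l2 Γ => T u) h1
    exact this
  intro u v
  calc Bf v (G u) = Bf (A (G v)) (G u) := by rw [h2]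
    _ = Bf (G u) (A (G v)) := Bf_comm _ _
    _ = Bf (G v) (A (G u)) := h _ _
    _ = Bf (G v) u := by rw [h2]
    _ = Bf u (G v) := Bf_comm _ _

/-! ### Shifts -/

theorem mfc {d : ℕ} (n x : Fin d → ℤ) :
    UnitAddTorus.mFourierCoeff (UnitAddTorus.mFourier n) x = if x = n then 1 else 0 := by
  have h := Pool.Agent.W308.LL.Trig.coef (Finsupp.single n 1) x
  have e : trig (Finsupp.single n 1) = UnitAddTorus.mFourier n := by
    unfold trig
    have h0 : (fun (n : Fin d → ℤ) (c : ℂ) =>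
        c • (UnitAddTorus.mFourier n : C(UnitAddTorus (Fin d), ℂ))) n 0 = 0 := by
      ext k
      change (0 : ℂ) * _ = 0
      rw [zero_mul]
    refine (Finsupp.sum_single_index h0).trans ?_
    ext k
    change (1 : ℂ) * _ = _
    rw [one_mul]
  rw [e] at h
  rw [h, Finsupp.single_apply]
  by_cases h1 : x = n
  · subst h1
    simp
  · rw [if_neg h1, if_neg (fun h2 => h1 h2.symm)]

theorem opr_mF (hO : S_OPR) {d : ℕ} (n : Fin d → ℤ) (u : l2 (Fin d → ℤ)) (x : Fin d → ℤ) :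
    opr (UnitAddTorus.mFourier n) u x = u (x - n) := by
  rw [((hO d (UnitAddTorus.mFourier n) 0).1 u x).2, tsum_eq_single (x - n)]
  · rw [mfc, if_pos (by abel), one_mul]
  · intro y hy
    rw [mfc, if_neg, zero_mul]
    intro h
    apply hy
    rw [← h]
    abel

theorem shift_sy (hO : S_OPR) {d : ℕ} (n : Fin d → ℤ) (u v : l2 (Fin d → ℤ)) :
    Bf v (opr (UnitAddTorus.mFourier n) u) = Bf u (opr (UnitAddTorus.mFourier (-n)) v) := by
  change ∑' x, (opr (UnitAddTorus.mFourier n) u) x * v x = ∑' x, (opr (UnitAddTorus.mFourier (-n)) v) x * u x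
  rw [← (Equiv.addRight n).tsum_eq (fun x => (opr (UnitAddTorus.mFourier n) u) x * v x)]
  apply tsum_congr
  intro x
  rw [opr_mF hO, opr_mF hO, Equiv.coe_addRight, add_sub_cancel_right, sub_neg_eq_add, mul_comm]

theorem shift_sy2 (hO : S_OPR) {d : ℕ} (n : Fin d → ℤ) :
    Sy (opr (UnitAddTorus.mFourier n) + opr (UnitAddTorus.mFourier (-n))) := by
  intro u v
  rw [ContinuousLinearMap.add_apply, ContinuousLinearMap.add_apply, map_add, map_add,
    shift_sy hO n u v, shift_sy hO (-n) u v, neg_neg, add_comm]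

/-- The linear map `opr`. -/
def oprL (hO : S_OPR) (d : ℕ) :
    C(UnitAddTorus (Fin d), ℂ) →ₗ[ℂ] (l2 (Fin d → ℤ) →L[ℂ] l2 (Fin d → ℤ)) where
  toFun := opr
  map_add' m m' := (hO d m m').2.2.2.1
  map_smul' a m := (hO d m 0).2.2.2.2.1 a

theorem xs_eq (d : ℕ) (γ : ℝ) (ζ : ℂ) :
    xs d γ ζ = (2 * d * γ - ζ : ℂ) • (1 : C(UnitAddTorus (Fin d), ℂ)) + (-(γ : ℂ)) •
      ∑ i : Fin d, (UnitAddTorus.mFourier (Pi.single i 1) + UnitAddTorus.mFourier (-Pi.single i 1)) := by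
  ext k
  have e1 : xs d γ ζ k = ((γ * lap d k : ℝ) : ℂ) - ζ := rfl
  have e2 : lap d k = ∑ i, (2 - 2 * (fourier 1 (k i)).re) := rfl
  rw [e1, e2, ContinuousMap.add_apply, ContinuousMap.smul_apply, ContinuousMap.smul_apply,
    ContinuousMap.one_apply, ContinuousMap.sum_apply]
  have e3 : ∀ i : Fin d, ((UnitAddTorus.mFourier (Pi.single i 1) +
      UnitAddTorus.mFourier (-Pi.single i 1) : C(UnitAddTorus (Fin d), ℂ))) k
      = ((2 * (fourier 1 (k i)).re : ℝ) : ℂ) := by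
    intro i
    rw [ContinuousMap.add_apply, UnitAddTorus.mFourier_neg, UnitAddTorus.mFourier_single]
    exact Complex.add_conj _
  rw [Finset.sum_congr rfl fun i _ => e3 i, Finset.sum_sub_distrib, ← Complex.ofReal_sum]
  simp only [smul_eq_mul, Finset.sum_const, Finset.card_univ, Fintype.card_fin, nsmul_eq_mul]
  push_cast
  ring

theorem opr_xs (hO : S_OPR) (d : ℕ) (γ : ℝ) (ζ : ℂ) :
    opr (xs d γ ζ) = (2 * d * γ - ζ : ℂ) • (1 : l2 (Fin d → ℤ) →L[ℂ] l2 (Fin d → ℤ)) + (-(γ : ℂ)) •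
      ∑ i : Fin d, (opr (UnitAddTorus.mFourier (Pi.single i 1)) +
        opr (UnitAddTorus.mFourier (-Pi.single i 1))) := by
  have h := congrArg (oprL hO d) (xs_eq d γ ζ)
  rw [map_add, map_smul, map_smul, map_sum] at h
  have e1 : oprL hO d 1 = 1 := (hO d 0 0).2.2.2.2.2.1
  rw [e1] at h
  refine h.trans ?_
  congr 2
  apply Finset.sum_congr rfl
  intro i _
  rw [map_add]
  rfl

theorem opr_xs_app (hO : S_OPR) (d : ℕ) (γ : ℝ) (ζ : ℂ) (u : l2 (Fin d → ℤ)) (x : Fin d → ℤ) :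
    opr (xs d γ ζ) u x = (2 * d * γ - ζ) * u x
      - γ * ∑ i : Fin d, (u (x + Pi.single i 1) + u (x - Pi.single i 1)) := by
  rw [opr_xs hO]
  have e1 : ((∑ i : Fin d, (opr (UnitAddTorus.mFourier (Pi.single i 1)) +
        opr (UnitAddTorus.mFourier (-Pi.single i 1)))) u : l2 (Fin d → ℤ)) x
      = ∑ i : Fin d, (u (x + Pi.single i 1) + u (x - Pi.single i 1)) := by
    rw [ContinuousLinearMap.sum_apply, lp.coeFn_sum, Finset.sum_apply]
    apply Finset.sum_congr rfl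
    intro i _
    rw [ContinuousLinearMap.add_apply, lp.coeFn_add, Pi.add_apply, opr_mF hO, opr_mF hO,
      sub_neg_eq_add, add_comm]
  rw [ContinuousLinearMap.add_apply, lp.coeFn_add, Pi.add_apply, ContinuousLinearMap.smul_apply,
    ContinuousLinearMap.smul_apply, lp.coeFn_smul, lp.coeFn_smul, Pi.smul_apply, Pi.smul_apply, e1,
    smul_eq_mul, smul_eq_mul, ContinuousLinearMap.one_apply]
  ring

theorem opr_xs_sy (hO : S_OPR) (d : ℕ) (γ : ℝ) (ζ : ℂ) : Sy (opr (xs d γ ζ)) := by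
  rw [opr_xs hO]
  exact (Sy.one.smul _).add ((Sy.sum _ _ fun i _ => shift_sy2 hO _).smul _)

/-! ### The clipped potential -/

theorem clip_le {w : ℝ} (hw : 0 < w) (t : ℝ) : |max (-w) (min w t)| ≤ w := by
  rw [abs_le]
  constructor
  · exact le_max_left _ _
  · exact max_le (by linarith) (min_le_left _ _)

theorem clip_eq {w t : ℝ} (ht : |t| ≤ w) : max (-w) (min w t) = t := by
  rw [abs_le] at ht
  rw [min_eq_right ht.2, max_eq_right ht.1]

theorem vcl_app (hD : S_DIA) {d : ℕ} {w : ℝ} (hw : 0 < w) (v : (Fin d → ℤ) → ℝ) :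
    (∀ (u : l2 (Fin d → ℤ)) (x : Fin d → ℤ), vcl w v u x = ((max (-w) (min w (v x)) : ℝ) : ℂ) * u x) ∧
      ‖vcl w v‖ ≤ w := by
  unfold vcl
  apply dia_ex hD _ w hw
  intro x
  rw [Complex.norm_real, Real.norm_eq_abs]
  exact clip_le hw _

theorem vcl_sy (hD : S_DIA) {d : ℕ} {w : ℝ} (hw : 0 < w) (v : (Fin d → ℤ) → ℝ) : Sy (vcl w v) := by
  intro u u'
  change ∑' x, (vcl w v u) x * u' x = ∑' x, (vcl w v u') x * u x
  apply tsum_congr
  intro x
  rw [(vcl_app hD hw v).1, (vcl_app hD hw v).1]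
  ring

/-! ### The resolvent -/

/-- The operator. -/
def Aop {d : ℕ} (w γ : ℝ) (ζ : ℂ) (v : (Fin d → ℤ) → ℝ) : l2 (Fin d → ℤ) →L[ℂ] l2 (Fin d → ℤ) :=
  vcl w v + opr (xs d γ ζ)

theorem A_sy (hO : S_OPR) (hD : S_DIA) {d : ℕ} {w : ℝ} (hw : 0 < w) (γ : ℝ) (ζ : ℂ)
    (v : (Fin d → ℤ) → ℝ) : Sy (Aop w γ ζ v) := (vcl_sy hD hw v).add (opr_xs_sy hO d γ ζ)

theorem A_norm (hO : S_OPR) (hD : S_DIA) {d : ℕ} {w : ℝ} (hw : 0 < w) (γ : ℝ) (ζ : ℂ)
    (v : (Fin d → ℤ) → ℝ) : ‖Aop w γ ζ v‖ ≤ w + ‖xs d γ ζ‖ :=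
  (norm_add_le _ _).trans (add_le_add (vcl_app hD hw v).2 (hO d (xs d γ ζ) 0).2.1)

theorem xs_im (d : ℕ) (γ : ℝ) (ζ : ℂ) (k : UnitAddTorus (Fin d)) : (xs d γ ζ k).im = -ζ.im := by
  have e1 : xs d γ ζ k = ((γ * lap d k : ℝ) : ℂ) - ζ := rfl
  rw [e1, Complex.sub_im, Complex.ofReal_im, zero_sub]

theorem im_opr (hS : S_SYMB) (hO : S_OPR) (d : ℕ) (γ : ℝ) (ζ : ℂ) (u : l2 (Fin d → ℤ)) :
    (inner ℂ u (opr (xs d γ ζ) u)).im = -(ζ.im * ‖u‖ ^ 2) := by
  have h := (hS d).1 (xs d γ ζ) 1 u u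
  have e1 : opr (1 : C(UnitAddTorus (Fin d), ℂ)) = 1 := (hO d 0 0).2.2.2.2.2.1
  have e2 : star (xs d γ ζ) * 1 = xs d γ ζ + (2 * Complex.I * ζ.im : ℂ) •
      (1 : C(UnitAddTorus (Fin d), ℂ)) := by
    ext k
    rw [mul_one, ContinuousMap.star_apply, ContinuousMap.add_apply, ContinuousMap.smul_apply,
      ContinuousMap.one_apply]
    apply Complex.ext
    · simp
    · simp [xs_im]
      ring
  rw [e1, e2, (hO d (xs d γ ζ) _).2.2.2.1, (hO d 1 0).2.2.2.2.1, e1, ContinuousLinearMap.one_apply,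
    ContinuousLinearMap.add_apply, ContinuousLinearMap.smul_apply, ContinuousLinearMap.one_apply,
    inner_add_right, inner_smul_right, inner_self_eq_norm_sq_to_K] at h
  have h2 := inner_conj_symm (𝕜 := ℂ) (opr (xs d γ ζ) u) u
  rw [h] at h2
  have h3 := congrArg Complex.im h2
  rw [Complex.conj_im, Complex.add_im] at h3
  have h4 : (2 * Complex.I * ζ.im * ((‖u‖ : ℝ) : ℂ) ^ 2 : ℂ).im = 2 * (ζ.im * ‖u‖ ^ 2) := by
    have e3 : (2 * Complex.I * ζ.im * ((‖u‖ : ℝ) : ℂ) ^ 2 : ℂ) =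
        ((2 * (ζ.im * ‖u‖ ^ 2) : ℝ) : ℂ) * Complex.I := by
      push_cast
      ring
    rw [e3, Complex.im_ofReal_mul, Complex.I_im, mul_one]
  have h5 := h3.trans (congrArg (fun t => (inner ℂ u (opr (xs d γ ζ) u)).im + t) h4)
  linarith

theorem im_vcl (hD : S_DIA) {d : ℕ} {w : ℝ} (hw : 0 < w) (v : (Fin d → ℤ) → ℝ)
    (u : l2 (Fin d → ℤ)) : (inner ℂ u (vcl w v u)).im = 0 := by
  have h1 : inner ℂ (vcl w v u) u = inner ℂ u (vcl w v u) := by
    rw [lp.inner_eq_tsum, lp.inner_eq_tsum]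
    apply tsum_congr
    intro x
    rw [(vcl_app hD hw v).1, RCLike.inner_apply, RCLike.inner_apply, map_mul, Complex.conj_ofReal]
    ring
  have h2 := inner_conj_symm (𝕜 := ℂ) (vcl w v u) u
  rw [h1] at h2
  exact Complex.conj_eq_iff_im.1 h2

theorem dl_norm {d : ℕ} (x : Fin d → ℤ) : ‖(dl x : l2 (Fin d → ℤ))‖ = 1 := by
  unfold dl
  rw [lp.norm_single (by norm_num)]
  exact norm_one

/-- The imaginary part of the diagonal elements. -/
theorem im_G (hS : S_SYMB) (hO : S_OPR) (hD : S_DIA) {d : ℕ} {w : ℝ} (hw : 0 < w) (γ : ℝ) (ζ : ℂ)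
    (v : (Fin d → ℤ) → ℝ) (x : Fin d → ℤ) (u : l2 (Fin d → ℤ)) (hu : Aop w γ ζ v u = dl x) :
    (u x).im = ζ.im * ‖u‖ ^ 2 := by
  have h1 : inner ℂ u (Aop w γ ζ v u) = starRingEnd ℂ (u x) := by
    rw [hu]
    unfold dl
    rw [lp.inner_single_right, RCLike.inner_apply, one_mul]
  have h2 : (inner ℂ u (Aop w γ ζ v u)).im = -(ζ.im * ‖u‖ ^ 2) := by
    unfold Aop
    rw [ContinuousLinearMap.add_apply, inner_add_right, Complex.add_im, im_vcl hD hw, im_opr hS hO,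
      zero_add]
  rw [h1, Complex.conj_im] at h2
  linarith

/-- The lower bound. -/
theorem norm_G (hO : S_OPR) (hD : S_DIA) {d : ℕ} {w : ℝ} (hw : 0 < w) (γ : ℝ) (ζ : ℂ)
    (v : (Fin d → ℤ) → ℝ) (x : Fin d → ℤ) (u : l2 (Fin d → ℤ)) (hu : Aop w γ ζ v u = dl x) :
    1 / (w + ‖xs d γ ζ‖) ≤ ‖u‖ := by
  have h0 : 0 < w + ‖xs d γ ζ‖ := by positivity
  rw [div_le_iff₀ h0]
  calc (1 : ℝ) = ‖Aop w γ ζ v u‖ := by rw [hu, dl_norm]
    _ ≤ ‖Aop w γ ζ v‖ * ‖u‖ := ContinuousLinearMap.le_opNorm _ _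
    _ ≤ (w + ‖xs d γ ζ‖) * ‖u‖ := by
        gcongr
        exact A_norm hO hD hw γ ζ v
    _ = ‖u‖ * (w + ‖xs d γ ζ‖) := mul_comm _ _

section

variable (hG : S_GR) (hS : S_SYMB) (hO : S_OPR) (hD : S_DIA) {d : ℕ} {w : ℝ} (hw : 0 < w) (γ : ℝ)
  {ζ : ℂ} (hζ : 0 < ζ.im)

include hG hw hζ in
theorem gr_facts (v : (Fin d → ℤ) → ℝ) : Aop w γ ζ v * gr w (xs d γ ζ) v = 1 ∧
    gr w (xs d γ ζ) v * Aop w γ ζ v = 1 ∧ ‖gr w (xs d γ ζ) v‖ ≤ 1 / ζ.im :=
  (hG d w ζ.im (xs d γ ζ) hw.le hζ (fun k => (xs_im d γ ζ k).le)).1 v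

include hG hw hζ in
theorem ge_meas (x y : Fin d → ℤ) : Measurable fun v => ge w γ ζ v x y :=
  (hG d w ζ.im (xs d γ ζ) hw.le hζ (fun k => (xs_im d γ ζ k).le)).2 (dl y) x

include hG hw hζ in
theorem A_gr (v : (Fin d → ℤ) → ℝ) (u : l2 (Fin d → ℤ)) :
    Aop w γ ζ v (gr w (xs d γ ζ) v u) = u :=
  congrArg (fun T : l2 (Fin d → ℤ) →L[ℂ] l2 (Fin d → ℤ) => T u) (gr_facts hG hw γ hζ v).1

include hG hw hζ in
theorem ge_norm (v : (Fin d → ℤ) → ℝ) (x y : Fin d → ℤ) : ‖ge w γ ζ v x y‖ ≤ 1 / ζ.im := by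
  unfold ge
  calc ‖(gr w (xs d γ ζ) v (dl y)) x‖ ≤ ‖gr w (xs d γ ζ) v (dl y)‖ :=
        lp.norm_apply_le_norm (by norm_num) _ _
    _ ≤ ‖gr w (xs d γ ζ) v‖ * ‖(dl y : l2 (Fin d → ℤ))‖ := ContinuousLinearMap.le_opNorm _ _
    _ ≤ 1 / ζ.im := by
        rw [dl_norm, mul_one]
        exact (gr_facts hG hw γ hζ v).2.2

include hG hO hD hw hζ in
theorem ge_symm (v : (Fin d → ℤ) → ℝ) (x y : Fin d → ℤ) : ge w γ ζ v x y = ge w γ ζ v y x := by
  have h := (A_sy hO hD hw γ ζ v).inv (gr_facts hG hw γ hζ v).1 (dl y) (dl x)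
  rw [Bf_dl, Bf_dl] at h
  exact h

include hG hS hO hD hw hζ in
theorem ge_im (v : (Fin d → ℤ) → ℝ) (x : Fin d → ℤ) :
    (ge w γ ζ v x x).im = ζ.im * ‖gr w (xs d γ ζ) v (dl x)‖ ^ 2 :=
  im_G hS hO hD hw γ ζ v x _ (A_gr hG hw γ hζ v (dl x))

include hG hS hO hD hw hζ in
theorem ge_low (v : (Fin d → ℤ) → ℝ) (x : Fin d → ℤ) :
    ζ.im * (1 / (w + ‖xs d γ ζ‖)) ^ 2 ≤ ‖ge w γ ζ v x x‖ := by
  calc ζ.im * (1 / (w + ‖xs d γ ζ‖)) ^ 2 ≤ ζ.im * ‖gr w (xs d γ ζ) v (dl x)‖ ^ 2 := by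
        gcongr
        exact norm_G hO hD hw γ ζ v x _ (A_gr hG hw γ hζ v (dl x))
    _ = (ge w γ ζ v x x).im := (ge_im hG hS hO hD hw γ hζ v x).symm
    _ ≤ |(ge w γ ζ v x x).im| := le_abs_self _
    _ ≤ ‖ge w γ ζ v x x‖ := Complex.abs_im_le_norm _

include hG hS hO hD hw hζ in
theorem ge_ne (v : (Fin d → ℤ) → ℝ) (x : Fin d → ℤ) : ge w γ ζ v x x ≠ 0 := by
  have h1 := ge_low hG hS hO hD hw γ hζ v x
  have h2 : 0 < ζ.im * (1 / (w + ‖xs d γ ζ‖)) ^ 2 := by positivity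
  intro h
  rw [h, norm_zero] at h1
  linarith

/-- The resolvent identity for the change of one site. -/
theorem vcl_sub (hD : S_DIA) {d : ℕ} {w : ℝ} (hw : 0 < w) (v : (Fin d → ℤ) → ℝ) (x : Fin d → ℤ)
    (t : ℝ) (ht : |t| ≤ w) (u : l2 (Fin d → ℤ)) :
    vcl w (Function.update v x t) u = vcl w (Function.update v x w) u
      + (((t - w : ℝ) : ℂ) * u x) • (dl x : l2 (Fin d → ℤ)) := by
  have hww : |w| ≤ w := (abs_of_pos hw).le
  ext z
  rw [lp.coeFn_add, Pi.add_apply, lp.coeFn_smul, Pi.smul_apply, (vcl_app hD hw _).1,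
    (vcl_app hD hw _).1, dl_app, smul_eq_mul]
  by_cases h : x = z
  · subst h
    rw [Function.update_self, Function.update_self, if_pos rfl, clip_eq ht, clip_eq hww]
    push_cast
    ring
  · rw [Function.update_of_ne (fun h' => h h'.symm), Function.update_of_ne (fun h' => h h'.symm),
      if_neg h, mul_zero, add_zero]

include hG hD hw hζ in
theorem ge_res (v : (Fin d → ℤ) → ℝ) (x : Fin d → ℤ) (t : ℝ) (ht : |t| ≤ w) (a b : Fin d → ℤ) :
    ge w γ ζ (Function.update v x t) a b = ge w γ ζ (Function.update v x w) a b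
      - ((t - w : ℝ) : ℂ) * ge w γ ζ (Function.update v x w) a x
        * ge w γ ζ (Function.update v x t) x b := by
  set u : l2 (Fin d → ℤ) := gr w (xs d γ ζ) (Function.update v x t) (dl b) with hu
  have h1 : Aop w γ ζ (Function.update v x t) u = dl b := A_gr hG hw γ hζ _ _
  have h2 : Aop w γ ζ (Function.update v x w) u
      = dl b - (((t - w : ℝ) : ℂ) * u x) • (dl x : l2 (Fin d → ℤ)) := by
    rw [← h1]
    unfold Aop
    rw [ContinuousLinearMap.add_apply, ContinuousLinearMap.add_apply, vcl_sub hD hw v x t ht u]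
    abel
  have h3 : u = gr w (xs d γ ζ) (Function.update v x w) (Aop w γ ζ (Function.update v x w) u) :=
    (congrArg (fun T : l2 (Fin d → ℤ) →L[ℂ] l2 (Fin d → ℤ) => T u)
      (gr_facts hG hw γ hζ (Function.update v x w)).2.1).symm
  rw [h2, map_sub, map_smul] at h3
  have h4 : u a = (gr w (xs d γ ζ) (Function.update v x w) (dl b)
      - (((t - w : ℝ) : ℂ) * u x) • gr w (xs d γ ζ) (Function.update v x w) (dl x)) a :=
    congrArg (fun f : l2 (Fin d → ℤ) => f a) h3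
  rw [lp.coeFn_sub, Pi.sub_apply, lp.coeFn_smul, Pi.smul_apply, smul_eq_mul] at h4
  change u a = _ - ((t - w : ℝ) : ℂ) * _ * u x
  rw [h4]
  unfold ge
  ring

include hG hS hO hD hw hζ in
theorem ge_one (v : (Fin d → ℤ) → ℝ) (x : Fin d → ℤ) (t : ℝ) (a : Fin d → ℤ) (ht : |t| ≤ w) :
    ge w γ ζ (Function.update v x t) x a = Qx w γ ζ x a v / ((t : ℂ) - Zx w γ ζ x v) := by
  have h1 := fun b => ge_res hG hD hw γ hζ v x t ht x b
  have hne := ge_ne hG hS hO hD hw γ hζ (Function.update v x w) x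
  unfold Qx Zx
  set g := ge w γ ζ (Function.update v x w) x x with hg
  have h2 : ∀ b, ge w γ ζ (Function.update v x t) x b * (1 + ((t - w : ℝ) : ℂ) * g)
      = ge w γ ζ (Function.update v x w) x b := by
    intro b
    have := h1 b
    linear_combination this
  have h3 : (1 + ((t - w : ℝ) : ℂ) * g) ≠ 0 := by
    intro h
    have h4 := h2 x
    rw [h, mul_zero] at h4
    exact hne h4.symm
  have h5 : (t : ℂ) - ((w : ℂ) - 1 / g) = (1 + ((t - w : ℝ) : ℂ) * g) / g := by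
    field_simp
    push_cast
    ring
  rw [h5, ← h2 a]
  field_simp

end

theorem main : S_GR → S_SYMB → S_OPR → S_DIA → S_RK := by
  intro hG hS hO hD d w γ ζ hw hγ hζ
  have hupd : ∀ x : Fin d → ℤ, Measurable fun v : (Fin d → ℤ) → ℝ => Function.update v x w :=
    fun x => measurable_update_left
  refine ⟨?_, ?_, ?_, ?_, ?_⟩
  · intro x
    exact measurable_const.sub (measurable_const.div ((ge_meas hG hw γ hζ x x).comp (hupd x)))
  · intro x a
    exact ((ge_meas hG hw γ hζ x a).comp (hupd x)).div ((ge_meas hG hw γ hζ x x).comp (hupd x))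
  · refine ⟨(1 / ζ.im) / (ζ.im * (1 / (w + ‖xs d γ ζ‖)) ^ 2), ?_⟩
    intro x a v
    unfold Qx
    rw [norm_div]
    have h1 := ge_norm hG hw γ hζ (Function.update v x w) x a
    have h2 := ge_low hG hS hO hD hw γ hζ (Function.update v x w) x
    have h3 : 0 < ζ.im * (1 / (w + ‖xs d γ ζ‖)) ^ 2 := by positivity
    exact div_le_div₀ (by positivity) h1 h3 h2
  · intro v x y
    exact ⟨ge_symm hG hO hD hw γ hζ v x y, ge_norm hG hw γ hζ v x y⟩
  · intro x v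
    have hne := ge_ne hG hS hO hD hw γ hζ (Function.update v x w) x
    have hQ : HasSum (fun a => ‖Qx w γ ζ x a v‖ ^ 2)
        (‖gr w (xs d γ ζ) (Function.update v x w) (dl x)‖ ^ 2
          / ‖ge w γ ζ (Function.update v x w) x x‖ ^ 2) := by
      have h1 := (hasSum_sq (gr w (xs d γ ζ) (Function.update v x w) (dl x))).div_const
        (‖ge w γ ζ (Function.update v x w) x x‖ ^ 2)
      refine h1.congr_fun fun a => ?_
      unfold Qx
      rw [norm_div, div_pow, ge_symm hG hO hD hw γ hζ _ x a]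
      rfl
    refine ⟨?_, hQ.summable, ?_, ?_, ?_, ?_, ?_⟩
    · unfold Qx
      exact div_self hne
    · rw [hQ.tsum_eq]
      unfold Zx
      rw [Complex.sub_im, Complex.ofReal_im, zero_sub, one_div, Complex.inv_im,
        ge_im hG hS hO hD hw γ hζ, Complex.normSq_eq_norm_sq]
      ring
    · intro t
      refine ⟨?_, fun a => ?_⟩
      · unfold Zx
        rw [Function.update_idem]
      · unfold Qx
        rw [Function.update_idem]
    · intro t a ht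
      exact ge_one hG hS hO hD hw γ hζ v x t a ht
    · intro t a b ht
      exact ge_res hG hD hw γ hζ v x t ht a b
    · intro a
      have h1 := congrArg (fun f : l2 (Fin d → ℤ) => f a) (A_gr hG hw γ hζ v (dl x))
      have h2 : (Aop w γ ζ v (gr w (xs d γ ζ) v (dl x))) a
          = ((max (-w) (min w (v a)) : ℝ) : ℂ) * ge w γ ζ v a x
            + ((2 * d * γ - ζ) * ge w γ ζ v a x
              - γ * ∑ i : Fin d, (ge w γ ζ v (a + Pi.single i 1) x
                + ge w γ ζ v (a - Pi.single i 1) x)) := by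
        unfold Aop
        rw [ContinuousLinearMap.add_apply, lp.coeFn_add, Pi.add_apply, (vcl_app hD hw v).1,
          opr_xs_app hO]
        rfl
      have h3 : ((dl x : l2 (Fin d → ℤ))) a = if x = a then 1 else 0 := dl_app x a
      have h4 := h2.symm.trans (h1.trans h3)
      rw [← h4]
      simp only [ge_symm hG hO hD hw γ hζ v x]
      ring

end Pool.Agent.N457.SD.RK

end
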